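import Pool.Agent.H33.HH.TA

/-!
# Row JID: the identity which kills the main terms
-/

set_option autoImplicit false

open Filter Topology MeasureTheory

namespace Pool.Agent.H35.HH

open Pool.Agent.H33.HH

noncomputable section

/-- `G(t) t^(-1/2)` -/
def gg (G : ℝ → ℝ) (t : ℝ) : ℝ := G t * t ^ (-(1 / 2) : ℝ)

/-- `v^(1/2) H(v)` -/
def et (H : ℝ → ℝ) (v : ℝ) : ℝ := v ^ (1 / 2 : ℝ) * H v

theorem et_add {H : ℝ → ℝ} (hH : IsH H) {v : ℝ} (hv : 0 < v) : et H v + et H v⁻¹ = 1 := by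
  have h1 := hH.sym v hv
  unfold et
  rw [Real.inv_rpow hv.le, ← Real.rpow_neg hv.le]
  exact h1

theorem et_nonneg {H : ℝ → ℝ} (hH : IsH H) (v : ℝ) : 0 ≤ et H v := by
  rcases le_total 0 v with h | h
  · exact mul_nonneg (Real.rpow_nonneg h _) (hH.nonneg v)
  · unfold et
    rw [hH.low v (by linarith), mul_zero]

theorem et_le {H : ℝ → ℝ} (hH : IsH H) (v : ℝ) : et H v ≤ 1 := by
  rcases le_or_gt v 0 with h | h
  · unfold et
    rw [hH.low v (by linarith), mul_zero]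
    exact zero_le_one
  · have h1 := et_add hH h
    have h2 := et_nonneg hH v⁻¹
    linarith

theorem et_meas {H : ℝ → ℝ} (hH : IsH H) : Measurable (et H) := by
  unfold et
  exact (measurable_id.pow_const _).mul hH.smooth.continuous.measurable

theorem gg_int {G : ℝ → ℝ} (hG : IsG G) :
    Integrable (gg G) (volume.restrict (Set.Ioi (0 : ℝ))) := by
  have hc : Continuous G := hG.smooth.continuous
  have h1 : IntegrableOn (gg G) (Set.Ioc (0 : ℝ) 3) := by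
    have h2 : IntervalIntegrable (fun t : ℝ => t ^ (-(1 / 2) : ℝ)) volume 0 3 :=
      intervalIntegral.intervalIntegrable_rpow' (by norm_num)
    have h3 : IntegrableOn (fun t : ℝ => t ^ (-(1 / 2) : ℝ)) (Set.Ioc (0 : ℝ) 3) :=
      (intervalIntegrable_iff_integrableOn_Ioc_of_le (by norm_num)).1 h2
    obtain ⟨C, hC⟩ := isCompact_Icc.exists_bound_of_continuousOn
      (s := Set.Icc (0 : ℝ) 3) hc.continuousOn
    refine (h3.norm.const_mul C).mono' ?_ ?_
    · exact (hc.measurable.mul (measurable_id.pow_const _)).aestronglyMeasurable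
    · refine (ae_restrict_iff' measurableSet_Ioc).2 (Eventually.of_forall fun t ht => ?_)
      unfold gg
      rw [norm_mul]
      exact mul_le_mul_of_nonneg_right (hC t ⟨ht.1.le, ht.2⟩) (norm_nonneg _)
  have h2 : IntegrableOn (gg G) (Set.Ioi (3 : ℝ)) := by
    refine (integrableOn_zero).congr_fun (fun t ht => ?_) measurableSet_Ioi
    have ht' : (3 : ℝ) < t := ht
    unfold gg
    rw [hG.high t ht'.le, zero_mul]
  have h3 := h1.union h2
  rwa [Set.Ioc_union_Ioi_eq_Ioi (by norm_num)] at h3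

theorem inner {G H : ℝ → ℝ} {a b t : ℝ} (ha : 0 < a) (hb : 0 < b)
    (ht : 0 < t) : a⁻¹ * (G t * Ji G H (b / a * t)) =
      Real.pi * (a * b) ^ (-(1 / 2) : ℝ) *
        ∫ s in Set.Ioi (0 : ℝ), gg G t * gg G s * et H (s * a / (t * b)) := by
  set c : ℝ := b / a * t with hc
  have hc0 : 0 < c := by positivity
  have h1 : ∫ u in Set.Ioi (0 : ℝ), H u * G (u * c) =
      c⁻¹ * ∫ s in Set.Ioi (0 : ℝ), H (s / c) * G s := by
    have h2 := integral_comp_mul_right_Ioi (fun s => H (s / c) * G s) 0 hc0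
    rw [zero_mul, smul_eq_mul] at h2
    rw [← h2]
    refine integral_congr_ae (Eventually.of_forall fun u => ?_)
    show H u * G (u * c) = H (u * c / c) * G (u * c)
    rw [mul_div_assoc, div_self hc0.ne', mul_one]
  unfold Ji
  rw [h1]
  have h3 : a⁻¹ * (G t * (Real.pi * (c⁻¹ * ∫ s in Set.Ioi (0 : ℝ), H (s / c) * G s))) =
      Real.pi * (a⁻¹ * G t * c⁻¹ * ∫ s in Set.Ioi (0 : ℝ), H (s / c) * G s) := by ring
  rw [h3]
  suffices key : a⁻¹ * G t * c⁻¹ * ∫ s in Set.Ioi (0 : ℝ), H (s / c) * G s =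
      (a * b) ^ (-(1 / 2) : ℝ) *
        ∫ s in Set.Ioi (0 : ℝ), gg G t * gg G s * et H (s * a / (t * b)) by
    rw [key, mul_assoc]
  rw [← integral_const_mul, ← integral_const_mul]
  refine setIntegral_congr_fun measurableSet_Ioi fun s hs => ?_
  have hs0 : (0 : ℝ) < s := hs
  have e1 : s / c = s * a / (t * b) := by
    rw [hc]
    field_simp
  have hv : 0 < s * a / (t * b) := by positivity
  show a⁻¹ * G t * c⁻¹ * (H (s / c) * G s) =
    (a * b) ^ (-(1 / 2) : ℝ) * (gg G t * gg G s * et H (s * a / (t * b)))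
  rw [e1]
  unfold gg et
  have e2 : (s * a / (t * b)) ^ (1 / 2 : ℝ) =
      s ^ (1 / 2 : ℝ) * a ^ (1 / 2 : ℝ) / (t ^ (1 / 2 : ℝ) * b ^ (1 / 2 : ℝ)) := by
    rw [Real.div_rpow (by positivity) (by positivity), Real.mul_rpow hs0.le ha.le,
      Real.mul_rpow ht.le hb.le]
  have e3 : (a * b) ^ (-(1 / 2) : ℝ) = (a ^ (1 / 2 : ℝ) * b ^ (1 / 2 : ℝ))⁻¹ := by
    rw [Real.rpow_neg (by positivity), Real.mul_rpow ha.le hb.le]
  have e4 : t ^ (-(1 / 2) : ℝ) = (t ^ (1 / 2 : ℝ))⁻¹ := Real.rpow_neg ht.le _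
  have e5 : s ^ (-(1 / 2) : ℝ) = (s ^ (1 / 2 : ℝ))⁻¹ := Real.rpow_neg hs0.le _
  have e6 : t = t ^ (1 / 2 : ℝ) * t ^ (1 / 2 : ℝ) := by
    rw [← Real.rpow_add ht]
    norm_num
  have e7 : b = b ^ (1 / 2 : ℝ) * b ^ (1 / 2 : ℝ) := by
    rw [← Real.rpow_add hb]
    norm_num
  have e8 : a⁻¹ * c⁻¹ = (b ^ (1 / 2 : ℝ) * b ^ (1 / 2 : ℝ) *
      (t ^ (1 / 2 : ℝ) * t ^ (1 / 2 : ℝ)))⁻¹ := by
    rw [← e6, ← e7, hc]
    field_simp
  rw [e2, e3, e4, e5]
  have p1 : a ^ (1 / 2 : ℝ) ≠ 0 := (Real.rpow_pos_of_pos ha _).ne'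
  have p2 : b ^ (1 / 2 : ℝ) ≠ 0 := (Real.rpow_pos_of_pos hb _).ne'
  have p3 : t ^ (1 / 2 : ℝ) ≠ 0 := (Real.rpow_pos_of_pos ht _).ne'
  have p4 : s ^ (1 / 2 : ℝ) ≠ 0 := (Real.rpow_pos_of_pos hs0 _).ne'
  have e9 : a⁻¹ * G t * c⁻¹ * (H (s * a / (t * b)) * G s) =
      (a⁻¹ * c⁻¹) * (G t * G s * H (s * a / (t * b))) := by ring
  rw [e9, e8]
  generalize a ^ (1 / 2 : ℝ) = A at *
  generalize b ^ (1 / 2 : ℝ) = B at *
  generalize t ^ (1 / 2 : ℝ) = T at *
  generalize s ^ (1 / 2 : ℝ) = S at *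
  generalize H (s * a / (t * b)) = h
  field_simp

/-- the integrand on the quadrant -/
def FF (G H : ℝ → ℝ) (a b : ℝ) (z : ℝ × ℝ) : ℝ :=
  gg G z.1 * gg G z.2 * et H (z.2 * a / (z.1 * b))

theorem FF_int {G H : ℝ → ℝ} (hG : IsG G) (hH : IsH H) (a b : ℝ) :
    Integrable (FF G H a b)
      ((volume.restrict (Set.Ioi (0 : ℝ))).prod (volume.restrict (Set.Ioi (0 : ℝ)))) := by
  have h1 := (gg_int hG).mul_prod (gg_int hG)
  have hm : Measurable fun z : ℝ × ℝ => et H (z.2 * a / (z.1 * b)) :=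
    (et_meas hH).comp ((measurable_snd.mul_const a).div (measurable_fst.mul_const b))
  refine h1.mul_bdd (c := 1) hm.aestronglyMeasurable (Eventually.of_forall fun z => ?_)
  rw [Real.norm_eq_abs, abs_of_nonneg (et_nonneg hH _)]
  exact et_le hH _

theorem term {G H : ℝ → ℝ} (hG : IsG G) (hH : IsH H) {a b : ℝ} (ha : 0 < a) (hb : 0 < b) :
    a⁻¹ * (∫ t in Set.Ioi (0 : ℝ), G t * Ji G H (b / a * t)) =
      Real.pi * (a * b) ^ (-(1 / 2) : ℝ) * ∫ z, FF G H a b z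
        ∂((volume.restrict (Set.Ioi (0 : ℝ))).prod (volume.restrict (Set.Ioi (0 : ℝ)))) := by
  rw [integral_prod _ (FF_int hG hH a b), ← integral_const_mul, ← integral_const_mul]
  refine setIntegral_congr_fun measurableSet_Ioi fun t ht => ?_
  exact inner ha hb ht

theorem pf_JID : T_JID := by
  intro G H hG hH a b ha hb
  set μ : Measure ℝ := volume.restrict (Set.Ioi (0 : ℝ)) with hμ
  rw [term hG hH ha hb, term hG hH hb ha, mul_comm b a, ← mul_add]
  have h1 : ∫ z, FF G H b a z ∂(μ.prod μ) = ∫ z, FF G H b a z.swap ∂(μ.prod μ) :=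
    (integral_prod_swap (FF G H b a)).symm
  have hi : Integrable (fun z => FF G H b a z.swap) (μ.prod μ) := (FF_int hG hH b a).swap
  have h2 : ∫ z, FF G H a b z ∂(μ.prod μ) + ∫ z, FF G H b a z ∂(μ.prod μ) =
      ∫ z, gg G z.1 * gg G z.2 ∂(μ.prod μ) := by
    rw [h1, ← integral_add (FF_int hG hH a b) hi]
    refine integral_congr_ae ?_
    have hae : ∀ᵐ z ∂(μ.prod μ), z ∈ Set.Ioi (0 : ℝ) ×ˢ Set.Ioi (0 : ℝ) := by
      rw [hμ, Measure.prod_restrict]
      exact ae_restrict_mem (measurableSet_Ioi.prod measurableSet_Ioi)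
    filter_upwards [hae] with z hz
    have hz1 : (0 : ℝ) < z.1 := hz.1
    have hz2 : (0 : ℝ) < z.2 := hz.2
    have hv : 0 < z.2 * a / (z.1 * b) := by positivity
    have e := et_add hH hv
    rw [inv_div] at e
    show gg G z.1 * gg G z.2 * et H (z.2 * a / (z.1 * b)) +
      gg G z.2 * gg G z.1 * et H (z.1 * b / (z.2 * a)) = gg G z.1 * gg G z.2
    linear_combination (gg G z.1 * gg G z.2) * e
  have h3 : ∫ z, gg G z.1 * gg G z.2 ∂(μ.prod μ) = (∫ t, gg G t ∂μ) * ∫ t, gg G t ∂μ :=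
    integral_prod_mul (gg G) (gg G)
  have h4 : ∫ t, gg G t ∂μ = 0 := hG.mean
  rw [h2, h3, h4, mul_zero, mul_zero]

end

end Pool.Agent.H35.HH
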